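import Pool.Agent.R847.QP.Lift
import Pool.Agent.R847.Gap.Affine

set_option autoImplicit false

/-! The gap principle for quasiprojective varieties. -/

namespace Pool.Agent.R847.QP

open MvPolynomial Pool.Agent.H936R2 Pool.Agent.R847.Gap

variable {N : ℕ}

/-- Return sets of a regular self-map of a quasiprojective variety are return sets of a polynomial
self-map of an affine space. -/
theorem Reg.exists_affine (D : Reg N) (C : Set (MvPolynomial (Fin (N + 1)) ℂ))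
    (hC : ∀ F ∈ C, ∃ d : ℕ, F.IsHomogeneous d) : ∃ (κ : Type) (_ : Fintype κ) (_ : DecidableEq κ)
    (f : κ → MvPolynomial κ ℂ) (S : Set (MvPolynomial κ ℂ)),
    (∀ z : κ → ℂ, (∃ n, ∀ g ∈ S, eval ((pt f)^[n] z) g = 0) → ∃ n, ∃ p ∈ D.X,
      ∀ l, (∀ g ∈ S, eval ((pt f)^[l + n] z) g = 0) ↔ ∀ F ∈ C, eval (D.Φ^[l] p).rep F = 0) ∧
    (∀ p ∈ D.X, ∃ z : κ → ℂ, ∀ l, (∀ g ∈ S, eval ((pt f)^[l] z) g = 0) ↔
      ∀ F ∈ C, eval (D.Φ^[l] p).rep F = 0) := by
  classical
  obtain ⟨κ, i1, i2, f, Y, M, ha, hb, hc, hd⟩ := D.exists_lift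
  let V : Set (MvPolynomial κ ℂ) := {g | ∃ F ∈ C, ∃ j, g = bind₁ (fun i => MvPolynomial.X (M i j)) F}
  have hV : ∀ (z : κ → ℂ) (p : Projectivization ℂ (Fin (N + 1) → ℂ)),
      Over (fun i j => z (M i j)) p →
      ((∀ g ∈ V, eval z g = 0) ↔ ∀ F ∈ C, eval p.rep F = 0) := by
    intro z p hov
    constructor
    · intro h F hF
      by_contra hne
      obtain ⟨e, he⟩ := hC F hF
      obtain ⟨j, hj⟩ := (hov.eval F e he).2 hne
      apply hj
      have := h _ ⟨F, hF, j, rfl⟩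
      rw [ev_bind] at this
      simpa only [eval_X] using this
    · rintro h g ⟨F, hF, j, rfl⟩
      obtain ⟨e, he⟩ := hC F hF
      rw [ev_bind]
      simp only [eval_X]
      exact (hov.eval F e he).1 (h F hF) j
  have hiter : ∀ (z : κ → ℂ) (p : Projectivization ℂ (Fin (N + 1) → ℂ)), p ∈ D.X →
      (∀ g ∈ Y, eval z g = 0) → Over (fun i j => z (M i j)) p → ∀ l,
      (∀ g ∈ Y, eval ((pt f)^[l] z) g = 0) ∧ D.Φ^[l] p ∈ D.X ∧
        Over (fun i j => (pt f)^[l] z (M i j)) (D.Φ^[l] p) := by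
    intro z p hp hz hov l
    induction l with
    | zero => exact ⟨hz, hp, hov⟩
    | succ l ih =>
      obtain ⟨h1, h2, h3⟩ := ih
      rw [Function.iterate_succ_apply', Function.iterate_succ_apply']
      exact ⟨hb _ h1, D.hΦ _ h2, hc _ h1 _ h2 h3⟩
  have hret : ∀ (z : κ → ℂ) (p : Projectivization ℂ (Fin (N + 1) → ℂ)), p ∈ D.X →
      (∀ g ∈ Y, eval z g = 0) → Over (fun i j => z (M i j)) p → ∀ l,
      ((∀ g ∈ Y ∪ V, eval ((pt f)^[l] z) g = 0) ↔ ∀ F ∈ C, eval (D.Φ^[l] p).rep F = 0) := by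
    intro z p hp hz hov l
    obtain ⟨h1, h2, h3⟩ := hiter z p hp hz hov l
    rw [← hV _ _ h3]
    constructor
    · exact fun h g hg => h g (Or.inr hg)
    · rintro h g (hg | hg)
      · exact h1 g hg
      · exact h g hg
  refine ⟨κ, i1, i2, f, Y ∪ V, ?_, ?_⟩
  · rintro z ⟨n, hn⟩
    obtain ⟨p, hp, hov⟩ := ha _ fun g hg => hn g (Or.inl hg)
    refine ⟨n, p, hp, fun l => ?_⟩
    rw [Function.iterate_add_apply]
    exact hret _ p hp (fun g hg => hn g (Or.inl hg)) hov l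
  · intro p hp
    obtain ⟨z, hz, hov⟩ := hd p hp
    exact ⟨z, hret z p hp hz hov⟩

/-- The gap principle for quasiprojective varieties. -/
theorem Reg.gap (D : Reg N) (C : Set (MvPolynomial (Fin (N + 1)) ℂ))
    (hC : ∀ F ∈ C, ∃ d : ℕ, F.IsHomogeneous d)
    (hno : ∀ p ∈ D.X, ∀ m : ℕ, 0 < m → ∃ t : ℕ, ∃ F ∈ C, eval (D.Φ^[m * t] p).rep F ≠ 0)
    (α : Projectivization ℂ (Fin (N + 1) → ℂ)) (hα : α ∈ D.X) :
    ExpSparse {n : ℕ | ∀ F ∈ C, eval (D.Φ^[n] α).rep F = 0} := by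
  classical
  obtain ⟨κ, i1, i2, f, S, h1, h2⟩ := D.exists_affine C hC
  have hnotrap : ∀ z : κ → ℂ, ¬ ∃ m, 0 < m ∧ ∀ t : ℕ, ∀ g ∈ S, eval ((pt f)^[m * t] z) g = 0 := by
    rintro z ⟨m, hm, hz⟩
    obtain ⟨n, p, hp, hl⟩ := h1 z ⟨0, by simpa using hz 0⟩
    -- move to a multiple of `m`
    have hn : n ≤ m * n := Nat.le_mul_of_pos_left n hm
    obtain ⟨t, F, hF, hne⟩ := hno (D.Φ^[m * n - n] p) (by
      have : ∀ l, D.Φ^[l] p ∈ D.X := by
        intro l
        induction l with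
        | zero => exact hp
        | succ l ih =>
          rw [Function.iterate_succ_apply']
          exact D.hΦ _ ih
      exact this _) m hm
    apply hne
    rw [← Function.iterate_add_apply]
    refine (hl _).1 ?_ F hF
    have h3 : m * t + (m * n - n) + n = m * (t + n) := by
      rw [Nat.mul_add]
      omega
    rw [h3]
    exact hz _
  obtain ⟨z, hz⟩ := h2 α hα
  have hset : {n : ℕ | ∀ F ∈ C, eval (D.Φ^[n] α).rep F = 0} =
      {n : ℕ | ∀ g ∈ S, eval ((pt f)^[n] z) g = 0} := by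
    ext n
    exact (hz n).symm
  rw [hset]
  rcases affine_gap f S ∅ Set.finite_empty (fun z hz => absurd hz (hnotrap z)) z with ⟨T, hT⟩ | h
  · have hfin : {n : ℕ | ∀ g ∈ S, eval ((pt f)^[n] z) g = 0}.Finite := by
      have hq : ∀ q ∈ T, q.1 = 0 := by
        intro q hq
        by_contra hne
        apply hnotrap ((pt f)^[q.2] z)
        refine ⟨q.1, Nat.pos_of_ne_zero hne, fun t => ?_⟩
        have h4 : q.1 * t + q.2 ∈ {n : ℕ | ∀ g ∈ S, eval ((pt f)^[n] z) g = 0} := by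
          rw [hT]
          exact ⟨q, hq, t, rfl⟩
        intro g hg
        rw [← Function.iterate_add_apply]
        exact h4 g hg
      rw [hT]
      apply (T.finite_toSet.image fun q => q.2).subset
      rintro n ⟨q, hqT, m, rfl⟩
      exact ⟨q, hqT, by rw [hq q hqT, zero_mul, zero_add]⟩
    refine ⟨hfin.toFinset.card, 1, 0, one_pos, fun n _ s hs => ?_⟩
    apply Finset.card_le_card
    intro m hm
    rw [Set.Finite.mem_toFinset]
    exact (hs m hm).1
  · exact h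

end Pool.Agent.R847.QP
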