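import Mathlib
import Pool.Agent.H936R2.Per

set_option autoImplicit false

/-! Regular self-maps of quasiprojective varieties lift to polynomial self-maps of closed subsets of
affine spaces (an effective form of the trick of Jouanolou). -/

namespace Pool.Agent.R847.QP

open MvPolynomial Pool.Agent.H936R2

/-- The Nullstellensatz on a closed set. -/
lemma null_on {κ : Type} [Finite κ] (Y : Set (MvPolynomial κ ℂ)) {l : Type} [Fintype l]
    (w : l → MvPolynomial κ ℂ)
    (h : ∀ z : κ → ℂ, (∀ g ∈ Y, eval z g = 0) → ∃ i, eval z (w i) ≠ 0) :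
    ∃ c : l → MvPolynomial κ ℂ, ∀ z : κ → ℂ, (∀ g ∈ Y, eval z g = 0) →
      ∑ i, eval z (c i) * eval z (w i) = 1 := by
  classical
  have h1 : (1 : MvPolynomial κ ℂ) ∈ (Ideal.span Y ⊔ Ideal.span (Set.range w)).radical := by
    rw [← MvPolynomial.vanishingIdeal_zeroLocus_eq_radical (K := ℂ),
      MvPolynomial.mem_vanishingIdeal_iff]
    intro x hx
    exfalso
    rw [MvPolynomial.mem_zeroLocus_iff] at hx
    obtain ⟨i, hi⟩ := h x fun g hg => by
      have := hx g (Ideal.mem_sup_left (Ideal.subset_span hg))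
      simpa using this
    apply hi
    have := hx (w i) (Ideal.mem_sup_right (Ideal.subset_span ⟨i, rfl⟩))
    simpa using this
  obtain ⟨M, hM⟩ := h1
  rw [one_pow] at hM
  obtain ⟨y, hy, v, hv, hyv⟩ := Submodule.mem_sup.1 hM
  rw [Ideal.mem_span_range_iff_exists_fun] at hv
  obtain ⟨c, hc⟩ := hv
  refine ⟨c, fun z hz => ?_⟩
  have hy0 : eval z y = 0 := by
    have : Ideal.span Y ≤ RingHom.ker (eval z : MvPolynomial κ ℂ →+* ℂ) :=
      Ideal.span_le.2 fun g hg => hz g hg
    exact this hy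
  have h2 := congrArg (eval z) hyv
  rw [map_add, hy0, zero_add, map_one, ← hc, map_sum] at h2
  rw [← h2]
  exact Finset.sum_congr rfl fun i _ => (map_mul _ _ _).symm

/-- A set of polynomials has the zeros of a finite subset. -/
lemma finite_sub {κ : Type} [Finite κ] (B : Set (MvPolynomial κ ℂ)) :
    ∃ B' : Finset (MvPolynomial κ ℂ), (B' : Set (MvPolynomial κ ℂ)) ⊆ B ∧
      ∀ z : κ → ℂ, (∃ g ∈ B, eval z g ≠ 0) → ∃ g ∈ B', eval z g ≠ 0 := by
  classical
  have hfg : (Submodule.span (MvPolynomial κ ℂ) B).FG := IsNoetherian.noetherian _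
  rw [Submodule.fg_span_iff_fg_span_finset_subset] at hfg
  obtain ⟨B', hB', hspan⟩ := hfg
  refine ⟨B', hB', fun z hz => ?_⟩
  by_contra hno
  push Not at hno
  obtain ⟨g, hg, hgz⟩ := hz
  apply hgz
  have h1 : g ∈ Submodule.span (MvPolynomial κ ℂ) (B' : Set (MvPolynomial κ ℂ)) := by
    rw [← hspan]
    exact Submodule.subset_span hg
  have h2 : Submodule.span (MvPolynomial κ ℂ) (B' : Set (MvPolynomial κ ℂ)) ≤
      (RingHom.ker (eval z : MvPolynomial κ ℂ →+* ℂ) : Ideal _) :=
    Submodule.span_le.2 fun g hg => hno g hg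
  exact h2 h1

lemma hom_scale {N : ℕ} (g : MvPolynomial (Fin (N + 1)) ℂ) (e : ℕ) (hg : g.IsHomogeneous e)
    (c : ℂ) (x : Fin (N + 1) → ℂ) : eval (c • x) g = c ^ e * eval x g := by
  classical
  rw [eval_eq, eval_eq, Finset.mul_sum]
  refine Finset.sum_congr rfl fun κ hκ => ?_
  have h1 : ∑ i, κ i = e := by
    have := hg (mem_support_iff.1 hκ)
    rw [Finsupp.weight_apply, Finsupp.sum_fintype _ _ (by simp)] at this
    simpa using this
  have h2 : ∏ i ∈ κ.support, (c • x) i ^ κ i = c ^ e * ∏ i ∈ κ.support, x i ^ κ i := by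
    simp only [Pi.smul_apply, smul_eq_mul, mul_pow, Finset.prod_mul_distrib]
    congr 1
    rw [Finset.prod_pow_eq_pow_sum, ← h1]
    congr 1
    exact Finset.sum_subset (Finset.subset_univ _) fun i _ hi => Finsupp.notMem_support_iff.1 hi
  rw [h2]
  ring

lemma ev_bind {κ ι : Type} (z : κ → ℂ) (h : ι → MvPolynomial κ ℂ) (g : MvPolynomial ι ℂ) :
    eval z (bind₁ h g) = eval (fun i => eval z (h i)) g := by
  have h1 : (eval z : MvPolynomial κ ℂ →+* ℂ).comp (bind₁ h : MvPolynomial ι ℂ →ₐ[ℂ]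
      MvPolynomial κ ℂ).toRingHom = eval (fun i => eval z (h i)) := by
    apply MvPolynomial.ringHom_ext
    · intro r
      simp
    · intro i
      simp
  exact RingHom.congr_fun h1 g

/-- The data of a regular self-map. -/
structure Reg (N : ℕ) where
  X : Set (Projectivization ℂ (Fin (N + 1) → ℂ))
  A : Set (MvPolynomial (Fin (N + 1)) ℂ)
  B : Set (MvPolynomial (Fin (N + 1)) ℂ)
  hA : ∀ F ∈ A, ∃ d : ℕ, F.IsHomogeneous d
  hB : ∀ F ∈ B, ∃ d : ℕ, F.IsHomogeneous d
  hX : ∀ p : Projectivization ℂ (Fin (N + 1) → ℂ), p ∈ X ↔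
        ((∀ F ∈ A, MvPolynomial.eval p.rep F = 0) ∧ ∃ F ∈ B, MvPolynomial.eval p.rep F ≠ 0)
  Φ : Projectivization ℂ (Fin (N + 1) → ℂ) → Projectivization ℂ (Fin (N + 1) → ℂ)
  hΦ : ∀ x ∈ X, Φ x ∈ X
  hreg : ∀ x ∈ X, ∃ (d e : ℕ) (F : Fin (N + 1) → MvPolynomial (Fin (N + 1)) ℂ)
          (g : MvPolynomial (Fin (N + 1)) ℂ),
          (∀ i, (F i).IsHomogeneous d) ∧ g.IsHomogeneous e ∧ MvPolynomial.eval x.rep g ≠ 0 ∧
          ∀ y ∈ X, MvPolynomial.eval y.rep g ≠ 0 →
            (fun i : Fin (N + 1) => MvPolynomial.eval y.rep (F i)) ≠ 0 ∧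
            (fun i : Fin (N + 1) => MvPolynomial.eval y.rep (F i)) ∈ (Φ y).submodule

variable {N : ℕ}

/-- Finitely many systems of forms define the map. -/
lemma Reg.exists_cover (D : Reg N) : ∃ (r : ℕ) (k : Fin r → ℕ)
    (W : Fin r → Fin (N + 1) → MvPolynomial (Fin (N + 1)) ℂ),
    (∀ j i, (W j i).IsHomogeneous (k j)) ∧ ∀ y ∈ D.X,
      (∀ j, (fun i => eval y.rep (W j i)) ∈ (D.Φ y).submodule) ∧
      ∃ j i, eval y.rep (W j i) ≠ 0 := by
  classical
  choose! d e F g hF hg hgx hgy using D.hreg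
  obtain ⟨B', hB', hcov⟩ := finite_sub (g '' D.X)
  have hB'' : ∀ b : B', ∃ x, x ∈ D.X ∧ g x = b.1 := fun b => hB' b.2
  choose x hxX hxb using hB''
  let E := Fintype.equivFin B'
  refine ⟨Fintype.card B', fun j => e (x (E.symm j)) + d (x (E.symm j)),
    fun j i => g (x (E.symm j)) * F (x (E.symm j)) i, fun j i => (hg _ (hxX _)).mul (hF _ (hxX _) i),
    fun y hy => ⟨fun j => ?_, ?_⟩⟩
  · have h1 : (fun i => eval y.rep (g (x (E.symm j)) * F (x (E.symm j)) i)) =
        eval y.rep (g (x (E.symm j))) • fun i => eval y.rep (F (x (E.symm j)) i) := by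
      funext i
      rw [map_mul]
      rfl
    rw [h1]
    by_cases h : eval y.rep (g (x (E.symm j))) = 0
    · rw [h, zero_smul]
      exact Submodule.zero_mem _
    · exact Submodule.smul_mem _ _ (hgy _ (hxX _) y hy h).2
  · obtain ⟨b, hb, hb0⟩ := hcov y.rep ⟨g y, ⟨y, hy, rfl⟩, hgx y hy⟩
    refine ⟨E ⟨b, hb⟩, ?_⟩
    have h1 : eval y.rep (g (x ⟨b, hb⟩)) ≠ 0 := by
      rw [hxb]
      exact hb0
    have h2 := (hgy _ (hxX ⟨b, hb⟩) y hy h1).1
    obtain ⟨i, hi⟩ := Function.ne_iff.1 h2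
    refine ⟨i, ?_⟩
    change eval y.rep (g (x (E.symm (E ⟨b, hb⟩))) * F (x (E.symm (E ⟨b, hb⟩))) i) ≠ 0
    rw [Equiv.symm_apply_apply, map_mul]
    exact mul_ne_zero h1 hi

/-- The columns of the matrix `M` span the line `p`. -/
def Over (M : Fin (N + 1) → Fin (N + 1) → ℂ) (p : Projectivization ℂ (Fin (N + 1) → ℂ)) : Prop :=
  (∀ j, (fun i => M i j) ∈ p.submodule) ∧ ∃ i j, M i j ≠ 0

lemma mem_submodule_iff (p : Projectivization ℂ (Fin (N + 1) → ℂ)) (v : Fin (N + 1) → ℂ) :
    v ∈ p.submodule ↔ ∃ c : ℂ, c • p.rep = v := by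
  rw [Projectivization.submodule_eq, Submodule.mem_span_singleton]

lemma Over.eval {M : Fin (N + 1) → Fin (N + 1) → ℂ} {p : Projectivization ℂ (Fin (N + 1) → ℂ)}
    (h : Over M p) (g : MvPolynomial (Fin (N + 1)) ℂ) (e : ℕ) (hg : g.IsHomogeneous e) :
    (MvPolynomial.eval p.rep g = 0 → ∀ j, MvPolynomial.eval (fun i => M i j) g = 0) ∧
      (MvPolynomial.eval p.rep g ≠ 0 → ∃ j, MvPolynomial.eval (fun i => M i j) g ≠ 0) := by
  constructor
  · intro h0 j
    obtain ⟨c, hc⟩ := (mem_submodule_iff p _).1 (h.1 j)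
    rw [← hc, hom_scale g e hg, h0, mul_zero]
  · intro h0
    obtain ⟨i, j, hij⟩ := h.2
    refine ⟨j, ?_⟩
    obtain ⟨c, hc⟩ := (mem_submodule_iff p _).1 (h.1 j)
    rw [← hc, hom_scale g e hg]
    refine mul_ne_zero (pow_ne_zero _ ?_) h0
    rintro rfl
    apply hij
    have := congrFun hc i
    rw [zero_smul] at this
    exact this.symm

lemma Over.unique {M : Fin (N + 1) → Fin (N + 1) → ℂ} {p q : Projectivization ℂ (Fin (N + 1) → ℂ)}
    (h : Over M p) (h' : Over M q) : p = q := by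
  obtain ⟨i, j, hij⟩ := h.2
  obtain ⟨c, hc⟩ := (mem_submodule_iff p _).1 (h.1 j)
  obtain ⟨c', hc'⟩ := (mem_submodule_iff q _).1 (h'.1 j)
  have hc0 : c ≠ 0 := by
    rintro rfl
    apply hij
    have := congrFun hc i
    rw [zero_smul] at this
    exact this.symm
  have hc0' : c' ≠ 0 := by
    rintro rfl
    apply hij
    have := congrFun hc' i
    rw [zero_smul] at this
    exact this.symm
  have h1 : p.rep = (c⁻¹ * c') • q.rep := by
    rw [← smul_smul, hc', ← hc, smul_smul, inv_mul_cancel₀ hc0, one_smul]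
  rw [← Projectivization.mk_rep p, ← Projectivization.mk_rep q,
    Projectivization.mk_eq_mk_iff']
  exact ⟨c⁻¹ * c', h1.symm⟩

/-- **Lifting.** A regular self-map of a quasiprojective variety lifts to a polynomial self-map of an
affine variety. -/
theorem Reg.exists_lift (D : Reg N) : ∃ (κ : Type) (_ : Fintype κ) (_ : DecidableEq κ)
    (f : κ → MvPolynomial κ ℂ) (Y : Set (MvPolynomial κ ℂ))
    (M : Fin (N + 1) → Fin (N + 1) → κ),
    (∀ z : κ → ℂ, (∀ g ∈ Y, eval z g = 0) → ∃ p ∈ D.X, Over (fun i j => z (M i j)) p) ∧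
    (∀ z : κ → ℂ, (∀ g ∈ Y, eval z g = 0) → (∀ g ∈ Y, eval (pt f z) g = 0)) ∧
    (∀ z : κ → ℂ, (∀ g ∈ Y, eval z g = 0) → ∀ p ∈ D.X, Over (fun i j => z (M i j)) p →
      Over (fun i j => pt f z (M i j)) (D.Φ p)) ∧
    (∀ p ∈ D.X, ∃ z : κ → ℂ, (∀ g ∈ Y, eval z g = 0) ∧ Over (fun i j => z (M i j)) p) := by
  classical
  obtain ⟨r, k, W, hW, hWy⟩ := D.exists_cover
  obtain ⟨B', hB', hcovB⟩ := finite_sub D.B
  let κ := (Fin (N + 1) × Fin (N + 1)) ⊕ (B' × Fin (N + 1))
  let M : Fin (N + 1) → Fin (N + 1) → κ := fun i j => Sum.inl (i, j)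
  let col : Fin (N + 1) → MvPolynomial (Fin (N + 1)) ℂ → MvPolynomial κ ℂ :=
    fun j g => bind₁ (fun i => MvPolynomial.X (M i j)) g
  have hcol : ∀ (z : κ → ℂ) j g, eval z (col j g) = eval (fun i => z (M i j)) g := by
    intro z j g
    change eval z (bind₁ (fun i => MvPolynomial.X (M i j)) g) = _
    rw [ev_bind]
    simp only [eval_X]
  -- the equations
  let Y1 : Set (MvPolynomial κ ℂ) := {g | ∃ i j k l, g = MvPolynomial.X (M i j) * MvPolynomial.X (M k l) - MvPolynomial.X (M i l) * MvPolynomial.X (M k j)}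
  let Y2 : Set (MvPolynomial κ ℂ) := {∑ i, MvPolynomial.X (M i i) - 1}
  let Y3 : Set (MvPolynomial κ ℂ) := {g | ∃ a ∈ D.A, ∃ j, g = col j a}
  let Y4 : Set (MvPolynomial κ ℂ) := {∑ q : B' × Fin (N + 1), MvPolynomial.X (Sum.inr q) * col q.2 q.1.1 - 1}
  let Y := Y1 ∪ Y2 ∪ Y3 ∪ Y4
  have hY : ∀ z : κ → ℂ, (∀ g ∈ Y, eval z g = 0) ↔
      (∀ i j k l, z (M i j) * z (M k l) = z (M i l) * z (M k j)) ∧ (∑ i, z (M i i) = 1) ∧
      (∀ a ∈ D.A, ∀ j, eval (fun i => z (M i j)) a = 0) ∧
      (∑ q : B' × Fin (N + 1), z (Sum.inr q) * eval (fun i => z (M i q.2)) q.1.1 = 1) := by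
    intro z
    constructor
    · intro h
      refine ⟨fun i j k l => ?_, ?_, fun a ha j => ?_, ?_⟩
      · have := h _ (Or.inl (Or.inl (Or.inl ⟨i, j, k, l, rfl⟩)))
        rw [map_sub, map_mul, map_mul, eval_X, eval_X, eval_X, eval_X] at this
        exact sub_eq_zero.1 this
      · have := h _ (Or.inl (Or.inl (Or.inr rfl)))
        rw [map_sub, map_sum, map_one] at this
        simp only [eval_X] at this
        exact sub_eq_zero.1 this
      · have := h _ (Or.inl (Or.inr ⟨a, ha, j, rfl⟩))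
        rwa [hcol] at this
      · have := h _ (Or.inr rfl)
        rw [map_sub, map_sum, map_one] at this
        simp only [map_mul, eval_X, hcol] at this
        exact sub_eq_zero.1 this
    · rintro ⟨h1, h2, h3, h4⟩ g (((hg | hg) | hg) | hg)
      · obtain ⟨i, j, k, l, rfl⟩ := hg
        rw [map_sub, map_mul, map_mul, eval_X, eval_X, eval_X, eval_X, h1, sub_self]
      · rw [Set.mem_singleton_iff] at hg
        subst hg
        rw [map_sub, map_sum, map_one]
        simp only [eval_X]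
        rw [h2, sub_self]
      · obtain ⟨a, ha, j, rfl⟩ := hg
        rw [hcol]
        exact h3 a ha j
      · rw [Set.mem_singleton_iff] at hg
        subst hg
        rw [map_sub, map_sum, map_one]
        simp only [map_mul, eval_X, hcol]
        rw [h4, sub_self]
  -- the points of `X` under the points of `Y`
  have ha : ∀ z : κ → ℂ, (∀ g ∈ Y, eval z g = 0) → ∃ p ∈ D.X, Over (fun i j => z (M i j)) p := by
    intro z hz
    obtain ⟨h1, h2, h3, h4⟩ := (hY z).1 hz
    have h5 : ∃ i, z (M i i) ≠ 0 := by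
      by_contra hno
      push Not at hno
      rw [Finset.sum_eq_zero fun i _ => hno i] at h2
      exact zero_ne_one h2
    obtain ⟨i, hi⟩ := h5
    have hv : (fun k => z (M k i)) ≠ 0 := fun h => hi (congrFun h i)
    let p := Projectivization.mk ℂ (fun k => z (M k i)) hv
    have hp : Over (fun i j => z (M i j)) p := by
      refine ⟨fun j => ?_, i, i, hi⟩
      rw [Projectivization.submodule_mk, Submodule.mem_span_singleton]
      refine ⟨z (M i j) / z (M i i), ?_⟩
      funext k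
      change z (M i j) / z (M i i) * z (M k i) = z (M k j)
      rw [div_mul_eq_mul_div, div_eq_iff hi, mul_comm]
      exact (h1 k i i j).trans rfl
    refine ⟨p, (D.hX p).2 ⟨fun a haA => ?_, ?_⟩, hp⟩
    · by_contra hne
      obtain ⟨e, he⟩ := D.hA a haA
      obtain ⟨j, hj⟩ := (hp.eval a e he).2 hne
      exact hj (h3 a haA j)
    · have h6 : ∃ q : B' × Fin (N + 1), eval (fun i => z (M i q.2)) q.1.1 ≠ 0 := by
        by_contra hno
        push Not at hno
        rw [Finset.sum_eq_zero fun q _ => by rw [hno q, mul_zero]] at h4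
        exact zero_ne_one h4
      obtain ⟨q, hq⟩ := h6
      refine ⟨q.1.1, hB' q.1.2, fun h0 => ?_⟩
      obtain ⟨e, he⟩ := D.hB q.1.1 (hB' q.1.2)
      exact hq ((hp.eval q.1.1 e he).1 h0 q.2)
  -- the coefficients of the first part of the lift
  obtain ⟨c, hc⟩ := null_on Y (l := Fin r × Fin (N + 1) × Fin (N + 1))
    (fun q => col q.2.1 (W q.1 q.2.2)) (by
      intro z hz
      obtain ⟨p, hp, hov⟩ := ha z hz
      obtain ⟨j, i, hji⟩ := (hWy p hp).2
      obtain ⟨l, hl⟩ := (hov.eval _ _ (hW j i)).2 hji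
      refine ⟨(j, l, i), ?_⟩
      change eval z (col l (W j i)) ≠ 0
      rw [hcol]
      exact hl)
  let M' : Fin (N + 1) → Fin (N + 1) → MvPolynomial κ ℂ :=
    fun i j => ∑ q : Fin r × Fin (N + 1), c (q.1, q.2, j) * col q.2 (W q.1 i)
  have hM' : ∀ z : κ → ℂ, ∀ i j, eval z (M' i j) =
      ∑ q : Fin r × Fin (N + 1), eval z (c (q.1, q.2, j)) * eval (fun i => z (M i q.2)) (W q.1 i) := by
    intro z i j
    change eval z (∑ q : Fin r × Fin (N + 1), c (q.1, q.2, j) * col q.2 (W q.1 i)) = _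
    rw [map_sum]
    simp only [map_mul, hcol]
  have hov' : ∀ z : κ → ℂ, (∀ g ∈ Y, eval z g = 0) → ∀ p ∈ D.X, Over (fun i j => z (M i j)) p →
      Over (fun i j => eval z (M' i j)) (D.Φ p) ∧ ∑ i, eval z (M' i i) = 1 := by
    intro z hz p hp hov
    have htr : ∑ i, eval z (M' i i) = 1 := by
      rw [← hc z hz]
      simp only [hM', Fintype.sum_prod_type, hcol]
      rw [Finset.sum_comm]
      refine Finset.sum_congr rfl fun j _ => ?_
      rw [Finset.sum_comm]
    refine ⟨⟨fun j => ?_, ?_⟩, htr⟩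
    · have h1 : (fun i => eval z (M' i j)) = ∑ q : Fin r × Fin (N + 1),
          eval z (c (q.1, q.2, j)) • fun i => eval (fun i => z (M i q.2)) (W q.1 i) := by
        funext i
        rw [hM', Finset.sum_apply]
        rfl
      rw [h1]
      refine Submodule.sum_mem _ fun q _ => Submodule.smul_mem _ _ ?_
      obtain ⟨s, hs⟩ := (mem_submodule_iff p _).1 (hov.1 q.2)
      have h2 : (fun i => eval (fun i => z (M i q.2)) (W q.1 i)) =
          s ^ k q.1 • fun i => eval p.rep (W q.1 i) := by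
        funext i
        rw [← hs, hom_scale _ _ (hW q.1 i)]
        rfl
      rw [h2]
      exact Submodule.smul_mem _ _ ((hWy p hp).1 q.1)
    · by_contra hno
      push Not at hno
      rw [Finset.sum_eq_zero fun i _ => hno i i] at htr
      exact zero_ne_one htr
  -- the coefficients of the second part of the lift
  obtain ⟨c', hc'⟩ := null_on Y (l := B' × Fin (N + 1))
    (fun q => bind₁ (fun i => M' i q.2) q.1.1) (by
      intro z hz
      obtain ⟨p, hp, hov⟩ := ha z hz
      obtain ⟨hov1, -⟩ := hov' z hz p hp hov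
      obtain ⟨b, hb, hb0⟩ := hcovB _ ((D.hX _).1 (D.hΦ p hp)).2
      obtain ⟨e, he⟩ := D.hB b (hB' hb)
      obtain ⟨j, hj⟩ := (hov1.eval b e he).2 hb0
      refine ⟨(⟨b, hb⟩, j), ?_⟩
      change eval z (bind₁ (fun i => M' i j) b) ≠ 0
      rw [ev_bind]
      exact hj)
  let f : κ → MvPolynomial κ ℂ := Sum.elim (fun q => M' q.1 q.2) c'
  have hf1 : ∀ z i j, pt f z (M i j) = eval z (M' i j) := fun z i j => rfl
  have hf2 : ∀ z q, pt f z (Sum.inr q) = eval z (c' q) := fun z q => rfl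
  refine ⟨κ, inferInstance, inferInstance, f, Y, M, ha, ?_, ?_, ?_⟩
  · intro z hz
    obtain ⟨p, hp, hov⟩ := ha z hz
    obtain ⟨hov1, htr⟩ := hov' z hz p hp hov
    rw [hY]
    refine ⟨fun i j k l => ?_, ?_, fun a haA j => ?_, ?_⟩
    · simp only [hf1]
      obtain ⟨s, hs⟩ := (mem_submodule_iff _ _).1 (hov1.1 j)
      obtain ⟨s', hs'⟩ := (mem_submodule_iff _ _).1 (hov1.1 l)
      have e1 := congrFun hs i
      have e2 := congrFun hs k
      have e3 := congrFun hs' i
      have e4 := congrFun hs' k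
      simp only [Pi.smul_apply, smul_eq_mul] at e1 e2 e3 e4
      rw [← e1, ← e2, ← e3, ← e4]
      ring
    · simp only [hf1]
      exact htr
    · obtain ⟨e, he⟩ := D.hA a haA
      exact (hov1.eval a e he).1 (((D.hX _).1 (D.hΦ p hp)).1 a haA) j
    · rw [← hc' z hz]
      refine Finset.sum_congr rfl fun q _ => ?_
      rw [hf2, ev_bind]
      rfl
  · intro z hz p hp hov
    exact (hov' z hz p hp hov).1
  · intro p hp
    obtain ⟨i0, hi0⟩ := Function.ne_iff.1 p.rep_nonzero
    obtain ⟨b, hb, hb0⟩ := hcovB _ ((D.hX _).1 hp).2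
    obtain ⟨e, he⟩ := D.hB b (hB' hb)
    have hi0' : p.rep i0 ≠ 0 := hi0
    let m : Fin (N + 1) → Fin (N + 1) → ℂ := fun i j => if j = i0 then p.rep i / p.rep i0 else 0
    have hm : (fun i => m i i0) = (p.rep i0)⁻¹ • p.rep := by
      funext i
      simp only [m, if_true, Pi.smul_apply, smul_eq_mul]
      rw [div_eq_inv_mul]
    have hov : Over m p := by
      refine ⟨fun j => ?_, i0, i0, ?_⟩
      · by_cases hj : j = i0
        · subst hj
          rw [hm]
          exact (mem_submodule_iff _ _).2 ⟨_, rfl⟩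
        · have : (fun i => m i j) = 0 := by
            funext i
            simp only [m, if_neg hj]
            rfl
          rw [this]
          exact Submodule.zero_mem _
      · simp only [m, if_true]
        rw [div_self hi0']
        exact one_ne_zero
    have hbi : eval (fun i => m i i0) b ≠ 0 := by
      rw [hm, hom_scale b e he]
      exact mul_ne_zero (pow_ne_zero _ (inv_ne_zero hi0')) hb0
    let z : κ → ℂ := Sum.elim (fun q => m q.1 q.2)
      (fun q => if q = (⟨b, hb⟩, i0) then (eval (fun i => m i i0) b)⁻¹ else 0)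
    refine ⟨z, ?_, hov⟩
    rw [hY]
    refine ⟨fun i j k l => ?_, ?_, fun a haA j => ?_, ?_⟩
    · change m i j * m k l = m i l * m k j
      simp only [m]
      by_cases hj : j = i0 <;> by_cases hl : l = i0 <;> simp [hj, hl]
    · change ∑ i, m i i = 1
      rw [Finset.sum_eq_single i0]
      · simp only [m, if_true]
        exact div_self hi0'
      · intro i _ hi
        simp only [m, if_neg hi]
      · intro h
        exact absurd (Finset.mem_univ _) h
    · obtain ⟨e', he'⟩ := D.hA a haA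
      exact (hov.eval a e' he').1 (((D.hX _).1 hp).1 a haA) j
    · rw [Finset.sum_eq_single (⟨b, hb⟩, i0)]
      · change (if ((⟨b, hb⟩, i0) : B' × Fin (N + 1)) = (⟨b, hb⟩, i0) then
          (eval (fun i => m i i0) b)⁻¹ else 0) * eval (fun i => m i i0) b = 1
        rw [if_pos rfl]
        exact inv_mul_cancel₀ hbi
      · intro q _ hq
        change (if q = (⟨b, hb⟩, i0) then (eval (fun i => m i i0) b)⁻¹ else 0) * _ = 0
        rw [if_neg hq, zero_mul]
      · intro h
        exact absurd (Finset.mem_univ _) h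

end Pool.Agent.R847.QP
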